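import Pool.Agent.N37.NC.Fin
import Pool.Agent.Results.MP_5d2531_al.NearlyMultilinear

/-!
# Degrees of the components (helper37)
-/

set_option autoImplicit false

namespace Pool.Agent.N37.NC

open Polynomial Finset
open Pool.Agent.Results.MP_5d2531_al.BlockTriangular (ScalarValued IsCentral IsNuCentral coef)

variable {K : Type*} [Field K] {σ : Type*}

theorem expand (f : FreeAlgebra K σ) :
    f = ∑ w ∈ (FreeAlgebra.equivMonoidAlgebraFreeMonoid f).coeff.support,
      coef f (FreeMonoid.toList w) • ((FreeMonoid.toList w).map (FreeAlgebra.ι K)).prod := by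
  have h1 : FreeAlgebra.equivMonoidAlgebraFreeMonoid.symm
      ((FreeAlgebra.equivMonoidAlgebraFreeMonoid f).coeff.sum MonoidAlgebra.single) = f := by
    rw [MonoidAlgebra.sum_coeff_single, AlgEquiv.symm_apply_apply]
  conv_lhs => rw [← h1]
  rw [Finsupp.sum, map_sum]
  refine sum_congr rfl fun w _ => ?_
  rw [symm_single]
  rfl

theorem mem_of_coef (f : FreeAlgebra K σ) (P : List σ → Prop) (h : ∀ l, coef f l ≠ 0 → P l) :
    f ∈ Submodule.span K {v : FreeAlgebra K σ | ∃ l : List σ, P l ∧
      v = (l.map (FreeAlgebra.ι K)).prod} := by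
  rw [expand f]
  refine Submodule.sum_mem _ fun w hw => Submodule.smul_mem _ _ (Submodule.subset_span ⟨_, ?_, rfl⟩)
  apply h
  exact Finsupp.mem_support_iff.1 hw

theorem coef_word (l l' : List σ) (h : coef ((l'.map (FreeAlgebra.ι K)).prod) l ≠ 0) : l = l' := by
  classical
  have h1 : FreeAlgebra.equivMonoidAlgebraFreeMonoid ((l'.map (FreeAlgebra.ι K)).prod) =
      MonoidAlgebra.single (FreeMonoid.ofList l') (1 : K) := by
    apply FreeAlgebra.equivMonoidAlgebraFreeMonoid.symm.injective
    rw [AlgEquiv.symm_apply_apply, symm_single, one_smul]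
    rfl
  unfold coef at h
  rw [h1, MonoidAlgebra.coeff_single, Finsupp.single_apply] at h
  by_contra hne
  rw [if_neg] at h
  · exact h rfl
  · intro e
    exact hne (congrArg FreeMonoid.toList e).symm

theorem coef_of_mem {f : FreeAlgebra K σ} {P : List σ → Prop}
    (hf : f ∈ Submodule.span K {v : FreeAlgebra K σ | ∃ l : List σ, P l ∧
      v = (l.map (FreeAlgebra.ι K)).prod}) (l : List σ) (h : coef f l ≠ 0) : P l := by
  revert h
  induction hf using Submodule.span_induction with
  | mem v hv =>
    obtain ⟨l', hP, rfl⟩ := hv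
    intro h
    rw [coef_word l l' h]
    exact hP
  | zero =>
    intro h
    exact absurd (by unfold coef; rw [map_zero]; rfl) h
  | add x y _ _ hx hy =>
    intro h
    by_contra hcon
    apply h
    have e : coef (x + y) l = coef x l + coef y l := by
      unfold coef
      rw [map_add, MonoidAlgebra.coeff_add, Finsupp.add_apply]
    rw [e, not_not.1 (fun h' => hcon (hx h')), not_not.1 (fun h' => hcon (hy h')), add_zero]
  | smul c x _ hx =>
    intro h
    apply hx
    intro h0
    apply h
    have e : coef (c • x) l = c * coef x l := by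
      unfold coef
      rw [map_smul, MonoidAlgebra.coeff_smul, Finsupp.smul_apply, smul_eq_mul]
    rw [e, h0, mul_zero]

theorem good_word [Infinite K] {n : ℕ} (hn : n.Prime) (hnK : (n : K) ≠ 0)
    {f : FreeAlgebra K σ} (h : Good n f) : ∃ l : List σ, l ≠ [] ∧ coef f l ≠ 0 := by
  by_contra hcon
  push Not at hcon
  have h1 : f ∈ Submodule.span K {v : FreeAlgebra K σ | ∃ l : List σ, l = [] ∧
      v = (l.map (FreeAlgebra.ι K)).prod} := by
    refine mem_of_coef f _ fun l hl => ?_
    by_contra hne
    exact hl (hcon l hne)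
  have h2 : {v : FreeAlgebra K σ | ∃ l : List σ, l = [] ∧ v = (l.map (FreeAlgebra.ι K)).prod} =
      {1} := by
    ext v
    simp
  rw [h2, Submodule.mem_span_singleton] at h1
  obtain ⟨c, rfl⟩ := h1
  obtain ⟨hP, X, hX⟩ := h
  have h3 := pur_trace hn.two_le (hP X)
  rw [map_smul, map_one, Matrix.trace_smul, Matrix.trace_one, Fintype.card_fin, smul_eq_mul] at h3
  rcases mul_eq_zero.1 h3 with h4 | h4
  · apply hX
    rw [h4, zero_smul, map_zero]
  · exact hnK h4

/-- the trailing component has degree more than `2 n` -/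
theorem low_degree [Infinite K] {n : ℕ} (hn : n.Prime) (hn5 : 5 ≤ n) (hnK : (n : K) ≠ 0)
    (h2K : (2 : K) ≠ 0) {f : FreeAlgebra K σ} (h : Good n f) (j : ℕ)
    (hw : OfWeight (fun _ => 1) j f) : 2 * n < j := by
  classical
  have hcen := nu_of_good hn hnK h
  have hlen : ∀ l : List σ, coef f l ≠ 0 → l.length = j := by
    intro l hl
    have h1 := coef_of_mem (P := fun l => (l.map (fun _ => 1)).sum = j) hw l hl
    simpa using h1
  obtain ⟨l, hl, hc⟩ := good_word hn hnK h
  have h1 := ((Pool.Agent.Results.MP_5d2531_al.BlockTriangular.result n hn (by omega) f hcen).2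
    l hl hc).2.1
  rw [hlen l hc] at h1
  rcases h1.lt_or_eq with h1 | h1
  · exact h1
  · exfalso
    have h2 := (Pool.Agent.Results.MP_5d2531_al.ShortWords.result n hn (by omega) f hcen).2.2 hn5
    refine Pool.Agent.Results.MP_5d2531_al.NearlyMultilinear.result n hn hn5 hnK h2K f hcen ?_
    refine mem_of_coef f _ fun l hl => ?_
    have h3 := h2 l (by rw [hlen l hl, h1]) hl
    rw [List.toFinset_card_of_nodup h3]
    omega

theorem H_coef {a b : ℕ} {f : FreeAlgebra K (Fin 2)} (h : f ∈ H K 0 a b) (l : List (Fin 2))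
    (hl : coef f l ≠ 0) : l.count 0 = a ∧ l.count 1 = b := by
  refine coef_of_mem (P := fun l => l.count 0 = a ∧ l.count 1 = b) ?_ l hl
  unfold H at h
  refine Submodule.span_mono ?_ h
  rintro v ⟨l, h1, h2, h3⟩
  exact ⟨l, ⟨h1, h2⟩, h3⟩

theorem length2 (l : List (Fin 2)) : l.length = l.count 0 + l.count 1 := by
  induction l with
  | nil => rfl
  | cons c l ih =>
    rcases cases2 0 c with rfl | rfl
    · rw [List.count_cons_self, List.count_cons_of_ne (by decide), List.length_cons, ih]
      omega
    · have e : (0 : Fin 2) + 1 = 1 := rfl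
      rw [e, List.count_cons_self, List.count_cons_of_ne (by decide), List.length_cons, ih]
      omega

theorem countP0 (l : List (Fin 2)) :
    l.countP (fun a => decide (a ≠ (0 : Fin 2))) = l.count 1 := by
  rw [List.count]
  refine List.countP_congr fun c _ => ?_
  fin_cases c <;> simp

theorem countP1 (l : List (Fin 2)) :
    l.countP (fun a => decide (a ≠ (1 : Fin 2))) = l.count 0 := by
  rw [List.count]
  refine List.countP_congr fun c _ => ?_
  fin_cases c <;> simp

/-- more than `n` letters of each kind -/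
theorem bounds [Infinite K] {n : ℕ} (hn : n.Prime) (hn5 : 5 ≤ n) (hnK : (n : K) ≠ 0)
    {a b : ℕ} {f : FreeAlgebra K (Fin 2)} (hH : f ∈ H K 0 a b) (h : Good n f) :
    n < a ∧ n < b ∧ 2 * n + n / 2 ≤ a + b := by
  classical
  have hcen := nu_of_good hn hnK h
  have hn6 : n.Coprime 6 := by
    rw [Nat.Prime.coprime_iff_not_dvd hn]
    intro hd
    have h1 := Nat.le_of_dvd (by norm_num) hd
    interval_cases n
    · omega
    · exact absurd hn (by norm_num)
  have hout : ∀ c : Fin 2, (∀ l : List (Fin 2), l.count 0 = a → l.count 1 = b →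
      (Pool.Agent.Results.MP_5d2531_al.OtherVariablesDegree.lettersOutside {c} l) ≤ n) →
      False := by
    intro c hc
    have h1 := (Pool.Agent.Results.MP_5d2531_al.OtherVariablesDegree.result n hn5 hn6 n hn.pos
      {c} f 0 ?_ (Submodule.zero_mem _) ?_).2.2 Set.subsingleton_singleton hn.one_lt ?_
    · exact h1 rfl
    · unfold H at hH
      refine Submodule.span_mono ?_ hH
      rintro v ⟨l, h1, h2, h3⟩
      exact ⟨l, hc l h1 h2, h3⟩
    · rw [add_zero]
      exact hcen.2.1.1
    · rw [add_zero]
      exact hcen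
  have ha : n < a := by
    by_contra hle
    push Not at hle
    refine hout 1 fun l h1 _ => ?_
    unfold Pool.Agent.Results.MP_5d2531_al.OtherVariablesDegree.lettersOutside
    refine le_trans (le_of_eq ?_) hle
    rw [← h1, ← countP1]
    refine List.countP_congr fun c _ => ?_
    simp
  have hb : n < b := by
    by_contra hle
    push Not at hle
    refine hout 0 fun l _ h1 => ?_
    unfold Pool.Agent.Results.MP_5d2531_al.OtherVariablesDegree.lettersOutside
    refine le_trans (le_of_eq ?_) hle
    rw [← h1, ← countP0]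
    refine List.countP_congr fun c _ => ?_
    simp
  refine ⟨ha, hb, ?_⟩
  obtain ⟨l, hl, hc⟩ := good_word hn hnK h
  have h1 := (Pool.Agent.Results.MP_5d2531_al.ShortWords.result n hn (by omega) f hcen).1 2
    (by norm_num) (by omega) l hl hc (by
      refine lt_of_le_of_lt (Finset.card_le_univ _) ?_
      rw [Fintype.card_fin]
      norm_num)
  obtain ⟨h2, h3⟩ := H_coef hH l hc
  rwa [length2, h2, h3] at h1

end Pool.Agent.N37.NC
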