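import Pool.Agent.N37.NC.Norm

/-!
# The normal form: bihomogeneous components and the minimal bidegree (helper37)
-/

set_option autoImplicit false

namespace Pool.Agent.N37.NC

open Polynomial Finset

variable {K : Type*} [Field K]

theorem symm_single {σ : Type*} (w : FreeMonoid σ) (c : K) :
    FreeAlgebra.equivMonoidAlgebraFreeMonoid.symm (MonoidAlgebra.single w c) =
      c • ((FreeMonoid.toList w).map (FreeAlgebra.ι K)).prod := by
  have h := Pool.Agent.TH82.NC.lift_symm_single (FreeAlgebra.ι K) w c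
  have e : FreeAlgebra.lift K (FreeAlgebra.ι K (X := σ)) = AlgHom.id K _ := by
    apply FreeAlgebra.hom_ext
    funext i
    simp
  rwa [e, AlgHom.id_apply] at h

theorem words_span {σ : Type*} (f : FreeAlgebra K σ) :
    f ∈ Submodule.span K {v : FreeAlgebra K σ | ∃ l : List σ,
      v = (l.map (FreeAlgebra.ι K)).prod} := by
  obtain ⟨g, rfl⟩ := (FreeAlgebra.equivMonoidAlgebraFreeMonoid (R := K) (X := σ)).symm.surjective f
  induction g using MonoidAlgebra.induction_linear with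
  | zero => rw [map_zero]; exact Submodule.zero_mem _
  | add g h hg hh => rw [map_add]; exact Submodule.add_mem _ hg hh
  | single w c =>
    rw [symm_single]
    exact Submodule.smul_mem _ _ (Submodule.subset_span ⟨_, rfl⟩)

theorem H_weight {a b : ℕ} {g : FreeAlgebra K (Fin 2)} (h : g ∈ H K 0 a b) (B : ℕ) :
    OfWeight (![B, 1] : Fin 2 → ℕ) (a * B + b) g := by
  unfold H at h
  induction h using Submodule.span_induction with
  | mem v hv =>
    obtain ⟨l, rfl, rfl, rfl⟩ := hv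
    refine Submodule.subset_span ⟨l, ?_, rfl⟩
    induction l with
    | nil => simp
    | cons c l ih =>
      rw [List.map_cons, List.sum_cons, ih]
      rcases cases2 0 c with rfl | rfl
      · rw [List.count_cons_self, List.count_cons_of_ne (by decide)]
        simp only [Matrix.cons_val_zero]
        ring
      · rw [List.count_cons_self, List.count_cons_of_ne (by decide)]
        have e : (![B, 1] : Fin 2 → ℕ) (0 + 1) = 1 := rfl
        rw [e]
        ring
  | zero => exact Submodule.zero_mem _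
  | add x y _ _ hx hy => exact Submodule.add_mem _ hx hy
  | smul c x _ hx => exact Submodule.smul_mem _ _ hx

theorem decomp (f : FreeAlgebra K (Fin 2)) : ∃ (s : Finset (ℕ × ℕ))
    (F : ℕ × ℕ → FreeAlgebra K (Fin 2)), (∀ p, F p ∈ H K 0 p.1 p.2) ∧ f = ∑ p ∈ s, F p := by
  have h : f ∈ ⨆ p : ℕ × ℕ, H K 0 p.1 p.2 := by
    have h1 := words_span f
    induction h1 using Submodule.span_induction with
    | mem v hv =>
      obtain ⟨l, rfl⟩ := hv
      exact Submodule.mem_iSup_of_mem (l.count 0, l.count (0 + 1))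
        (Submodule.subset_span ⟨l, rfl, rfl, rfl⟩)
    | zero => exact Submodule.zero_mem _
    | add x y _ _ hx hy => exact Submodule.add_mem _ hx hy
    | smul c x _ hx => exact Submodule.smul_mem _ _ hx
  rw [Submodule.mem_iSup_iff_exists_finset] at h
  obtain ⟨s, hs⟩ := h
  rw [Submodule.mem_iSup_finset_iff_exists_sum] at hs
  obtain ⟨μ, hμ⟩ := hs
  exact ⟨s, fun p => μ p, fun p => (μ p).2, hμ.symm⟩

theorem uniq_aux {B : ℕ} {p q : ℕ × ℕ} (h1 : p.2 < B) (h2 : q.2 < B)
    (h3 : q.1 * B + q.2 = p.1 * B + p.2) : q = p := by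
  have h4 : q.1 = p.1 := by
    rcases lt_trichotomy q.1 p.1 with h | h | h
    · nlinarith
    · exact h
    · nlinarith
  rw [h4] at h3
  exact Prod.ext h4 (by omega)

/-- the part of weight `j` -/
noncomputable def part (s : Finset (ℕ × ℕ)) (F : ℕ × ℕ → FreeAlgebra K (Fin 2)) (B j : ℕ) :
    FreeAlgebra K (Fin 2) := ∑ p ∈ s.filter (fun p => p.1 * B + p.2 = j), F p

theorem part_weight (s : Finset (ℕ × ℕ)) (F : ℕ × ℕ → FreeAlgebra K (Fin 2))
    (hF : ∀ p, F p ∈ H K 0 p.1 p.2) (B j : ℕ) : OfWeight (![B, 1] : Fin 2 → ℕ) j (part s F B j) := by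
  refine Submodule.sum_mem _ fun p hp => ?_
  have h1 := H_weight (hF p) B
  rw [(mem_filter.1 hp).2] at h1
  exact h1

theorem part_sum (s : Finset (ℕ × ℕ)) (F : ℕ × ℕ → FreeAlgebra K (Fin 2)) (B N : ℕ)
    (hN2 : ∀ p ∈ s, p.1 * B + p.2 ∈ range (N + 1)) :
    ∑ p ∈ s, F p = ∑ j ∈ range (N + 1), part s F B j :=
  (sum_fiberwise_of_maps_to hN2 F).symm

theorem part_eq (s : Finset (ℕ × ℕ)) (F : ℕ × ℕ → FreeAlgebra K (Fin 2)) (B J : ℕ)
    (hB2 : ∀ p ∈ s, p.2 < B) (h : part s F B J ≠ 0) : ∃ p, part s F B J = F p := by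
  obtain ⟨p, hp⟩ : (s.filter (fun p => p.1 * B + p.2 = J)).Nonempty := by
    by_contra hcon
    rw [not_nonempty_iff_eq_empty] at hcon
    apply h
    rw [part, hcon, sum_empty]
  refine ⟨p, ?_⟩
  have huniq : s.filter (fun p => p.1 * B + p.2 = J) = {p} := by
    ext q
    rw [mem_singleton]
    constructor
    · intro hq
      rw [mem_filter] at hp hq
      exact uniq_aux (hB2 p hp.1) (hB2 q hq.1) (hq.2.trans hp.2.symm)
    · rintro rfl
      exact hp
  rw [part, huniq, sum_singleton]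

theorem exists_bihom [Infinite K] {n : ℕ} {f : FreeAlgebra K (Fin 2)} (hf : Good n f) :
    ∃ a b, ∃ g ∈ H K 0 a b, Good n g := by
  obtain ⟨s, F, hF, rfl⟩ := decomp f
  obtain ⟨B, hB2⟩ : ∃ B : ℕ, ∀ p ∈ s, p.2 < B :=
    ⟨s.sup (fun p => p.2) + 1, fun p hp =>
      Nat.lt_succ_of_le (Finset.le_sup (f := fun p : ℕ × ℕ => p.2) hp)⟩
  obtain ⟨N, hN2⟩ : ∃ N : ℕ, ∀ p ∈ s, p.1 * B + p.2 ∈ range (N + 1) :=
    ⟨s.sup (fun p => p.1 * B + p.2), fun p hp =>
      mem_range.2 (Nat.lt_succ_of_le (Finset.le_sup (f := fun p : ℕ × ℕ => p.1 * B + p.2) hp))⟩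
  rw [part_sum s F B N hN2] at hf
  obtain ⟨J, hJ, hG, -⟩ := (components (![B, 1] : Fin 2 → ℕ) N (part s F B)
    (fun j _ => part_weight s F hF B j) hf).1
  obtain ⟨p, hp⟩ := part_eq s F B J hB2 (by
    intro h0
    obtain ⟨X, hX⟩ := hG.2
    rw [h0, map_zero] at hX
    exact hX rfl)
  rw [hp] at hG
  exact ⟨p.1, p.2, F p, hF p, hG⟩

theorem H_swap (a b : ℕ) : H K 1 b a = H K 0 a b := by
  have e : (1 : Fin 2) + 1 = 0 := by decide
  have e' : (0 : Fin 2) + 1 = 1 := by decide
  unfold H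
  rw [e, e']
  congr 1
  ext v
  constructor
  · rintro ⟨l, h1, h2, h3⟩
    exact ⟨l, h2, h1, h3⟩
  · rintro ⟨l, h1, h2, h3⟩
    exact ⟨l, h2, h1, h3⟩

theorem normal [Infinite K] {n : ℕ} {f0 : FreeAlgebra K (Fin 2)} (h0 : Good n f0) :
    ∃ a b, (∃ f ∈ H K 0 a b, Good n f) ∧
      (∀ a' b', (∃ f ∈ H K 0 a' b', Good n f) → a < a' ∨ a = a' ∧ b ≤ b') ∧
      ∀ f ∈ H K 0 a b, Good n f → ∀ (Y Z : Matrix (Fin n) (Fin n) K) (g : K[X]) (c : K),
        FreeAlgebra.lift K ![Y + aeval Z g, Z + algebraMap K _ c] f =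
          FreeAlgebra.lift K ![Y, Z] f := by
  classical
  have hex : ∃ a, ∃ b, ∃ f ∈ H K 0 a b, Good n f := exists_bihom h0
  have hex2 : ∃ b, ∃ f ∈ H K 0 (Nat.find hex) b, Good n f := Nat.find_spec hex
  refine ⟨Nat.find hex, Nat.find hex2, Nat.find_spec hex2, ?_, ?_⟩
  · intro a' b' h
    have h1 : Nat.find hex ≤ a' := Nat.find_le ⟨b', h⟩
    rcases h1.lt_or_eq with h1 | h1
    · exact Or.inl h1
    · refine Or.inr ⟨h1, Nat.find_le ?_⟩
      rw [h1]
      exact h
  · intro f hH hf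
    have hx : ∀ (k : ℕ) (Y : Fin 2 → Matrix (Fin n) (Fin n) K) (t : K),
        FreeAlgebra.lift K (fun c => Y c + if c = 0 then t • Y (0 + 1) ^ k else 0) f =
          FreeAlgebra.lift K Y f := by
      intro k
      rcases inv_or_lower 0 k _ _ f hH hf with ⟨e, he, b', -, hg⟩ | h
      · exact absurd ⟨b', hg⟩ (Nat.find_min hex he)
      · exact h
    have hy : ∀ (Y : Fin 2 → Matrix (Fin n) (Fin n) K) (t : K),
        FreeAlgebra.lift K (fun c => Y c + if c = 1 then t • Y (1 + 1) ^ 0 else 0) f =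
          FreeAlgebra.lift K Y f := by
      rcases inv_or_lower 1 0 _ _ f (by rw [H_swap]; exact hH) hf with ⟨e, he, b', hb', hg⟩ | h
      · rw [hb' rfl, H_swap] at hg
        exact absurd hg (Nat.find_min hex2 he)
      · exact h
    have hx2 : ∀ (g : K[X]) (Y Z : Matrix (Fin n) (Fin n) K),
        FreeAlgebra.lift K ![Y + aeval Z g, Z] f = FreeAlgebra.lift K ![Y, Z] f := by
      intro g
      induction g using Polynomial.induction_on' with
      | add p q hp hq =>
        intro Y Z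
        rw [map_add, ← add_assoc, hq, hp]
      | monomial k t =>
        intro Y Z
        rw [← hx k ![Y, Z] t]
        congr 2
        funext c
        fin_cases c
        · simp [aeval_monomial, Algebra.smul_def]
        · simp
    intro Y Z g c
    have h1 := hy ![Y + aeval Z g, Z] c
    rw [← hx2 g Y Z, ← h1]
    congr 2
    funext i
    fin_cases i
    · simp
    · simp [Algebra.smul_def]

end Pool.Agent.N37.NC
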