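import Pool.Agent.N37.NC.Fin

/-!
# Polynomials of least degree in one variable (helper37)
-/

set_option autoImplicit false

namespace Pool.Agent.N37.NC

open Polynomial Finset

variable {K : Type*} [Field K]

/-- linear combinations of the words with `a` letters `0` -/
def V (K : Type*) [Field K] (a : ℕ) : Submodule K (FreeAlgebra K (Fin 2)) :=
  Submodule.span K {v | ∃ l : List (Fin 2), l.count 0 = a ∧ v = (l.map (FreeAlgebra.ι K)).prod}

theorem H_le_V (a b : ℕ) : H K 0 a b ≤ V K a := by
  unfold H V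
  apply Submodule.span_mono
  rintro v ⟨l, h1, -, h2⟩
  exact ⟨l, h1, h2⟩

theorem Phi_V (k : ℕ) {a : ℕ} {f : FreeAlgebra K (Fin 2)} (h : f ∈ V K a) (j : ℕ) :
    (∀ e, e + j = a → (Phi K 0 k f).coeff j ∈ V K e) ∧
    (a < j → (Phi K 0 k f).coeff j = 0) := by
  unfold V at h
  induction h using Submodule.span_induction with
  | mem v hv =>
    obtain ⟨l, rfl, rfl⟩ := hv
    exact ⟨fun e he => H_le_V _ _ ((Phi_word 0 k l j).1 e he), (Phi_word 0 k l j).2⟩
  | zero =>
    rw [map_zero, coeff_zero]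
    exact ⟨fun _ _ => Submodule.zero_mem _, fun _ => rfl⟩
  | add x y _ _ hx hy =>
    rw [map_add, coeff_add]
    refine ⟨fun e he => Submodule.add_mem _ (hx.1 e he) (hy.1 e he), fun hj => ?_⟩
    rw [hx.2 hj, hy.2 hj, add_zero]
  | smul c x _ hx =>
    rw [map_smul, coeff_smul]
    refine ⟨fun e he => Submodule.smul_mem _ _ (hx.1 e he), fun hj => ?_⟩
    rw [hx.2 hj, smul_zero]

/-- invariance or a polynomial of smaller degree -/
theorem inv_or_lower_V [Infinite K] {n : ℕ} (k a : ℕ) (f : FreeAlgebra K (Fin 2))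
    (hH : f ∈ V K a) (hf : Good n f) :
    (∃ e, e < a ∧ ∃ g ∈ V K e, Good n g) ∨
    ∀ (Y : Fin 2 → Matrix (Fin n) (Fin n) K) (t : K),
      FreeAlgebra.lift K (fun c => Y c + if c = 0 then t • Y (0 + 1) ^ k else 0) f =
        FreeAlgebra.lift K Y f := by
  have key : ∀ (Y : Fin 2 → Matrix (Fin n) (Fin n) K) (t : K),
      FreeAlgebra.lift K (fun c => Y c + if c = 0 then t • Y (0 + 1) ^ k else 0) f =
        ∑ j ∈ range (a + 1), t ^ j • FreeAlgebra.lift K Y ((Phi K 0 k f).coeff j) := by
    intro Y t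
    rw [← evt_Phi, evt_apply Y t _ a fun j hj => (Phi_V k hH j).2 hj]
  have key0 : ∀ Y : Fin 2 → Matrix (Fin n) (Fin n) K,
      FreeAlgebra.lift K Y f = FreeAlgebra.lift K Y ((Phi K 0 k f).coeff 0) := by
    intro Y
    have h1 := key Y 0
    have e : (fun c => Y c + if c = 0 then (0 : K) • Y (0 + 1) ^ k else 0) = Y := by
      funext c
      split_ifs
      · rw [zero_smul, add_zero]
      · rw [add_zero]
    rw [e] at h1
    rw [h1, sum_range_succ', sum_eq_zero, zero_add, pow_zero, one_smul]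
    intro j _
    rw [pow_succ, mul_zero, zero_smul]
  obtain ⟨J, hJ, hG, hv⟩ := leading a (fun j => (Phi K 0 k f).coeff j)
    (fun X t _ => by
      rw [← key X t]
      exact hf.1 _) (by
      obtain ⟨X, hX⟩ := hf.2
      exact ⟨0, Nat.zero_le _, X, by rw [← key0]; exact hX⟩)
  rcases Nat.eq_zero_or_pos J with rfl | hJ0
  · right
    intro Y t
    rw [key, key0 Y, sum_range_succ', sum_eq_zero, zero_add, pow_zero, one_smul]
    intro j hj
    rw [mem_range] at hj
    rw [hv (j + 1) (by omega) (by omega) Y, smul_zero]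
  · left
    exact ⟨a - J, by omega, _, (Phi_V k hH J).1 (a - J) (by omega), hG⟩

/-- bihomogeneous components of a polynomial homogeneous in the letter `0` -/
theorem decompV {a : ℕ} {f : FreeAlgebra K (Fin 2)} (h : f ∈ V K a) : ∃ (N : ℕ)
    (F : ℕ → FreeAlgebra K (Fin 2)), (∀ b, F b ∈ H K 0 a b) ∧ f = ∑ b ∈ range (N + 1), F b := by
  unfold V at h
  induction h using Submodule.span_induction with
  | mem v hv =>
    obtain ⟨l, rfl, rfl⟩ := hv
    refine ⟨l.count (0 + 1), fun b => if b = l.count (0 + 1) then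
      (l.map (FreeAlgebra.ι K)).prod else 0, fun b => ?_, ?_⟩
    · show (if b = l.count (0 + 1) then (l.map (FreeAlgebra.ι K)).prod else 0) ∈ _
      split_ifs with hb
      · exact Submodule.subset_span ⟨l, rfl, hb.symm, rfl⟩
      · exact Submodule.zero_mem _
    · rw [sum_ite_eq' (range _), if_pos (mem_range.2 (Nat.lt_succ_self _))]
  | zero => exact ⟨0, fun _ => 0, fun _ => Submodule.zero_mem _, by simp⟩
  | add x y _ _ hx hy =>
    obtain ⟨N, F, hF, rfl⟩ := hx
    obtain ⟨M, G, hG, rfl⟩ := hy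
    refine ⟨max N M, fun b => (if b < N + 1 then F b else 0) + (if b < M + 1 then G b else 0),
      fun b => ?_, ?_⟩
    · refine Submodule.add_mem _ ?_ ?_
      · split_ifs
        · exact hF b
        · exact Submodule.zero_mem _
      · split_ifs
        · exact hG b
        · exact Submodule.zero_mem _
    · rw [sum_add_distrib, ← sum_filter, ← sum_filter]
      congr 1
      · refine sum_congr ?_ fun _ _ => rfl
        ext b
        simp only [mem_range, mem_filter]
        omega
      · refine sum_congr ?_ fun _ _ => rfl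
        ext b
        simp only [mem_range, mem_filter]
        omega
  | smul c x _ hx =>
    obtain ⟨N, F, hF, rfl⟩ := hx
    exact ⟨N, fun b => c • F b, fun b => Submodule.smul_mem _ _ (hF b), by rw [smul_sum]⟩

theorem exists_bihom_V [Infinite K] {n a : ℕ} {f : FreeAlgebra K (Fin 2)} (hV : f ∈ V K a)
    (hf : Good n f) : ∃ b, ∃ g ∈ H K 0 a b, Good n g := by
  obtain ⟨N, F, hF, rfl⟩ := decompV hV
  obtain ⟨J, -, hG, -⟩ := (components (![0, 1] : Fin 2 → ℕ) N F (fun j _ => by
    have h1 := H_weight (hF j) 0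
    rwa [mul_zero, zero_add] at h1) hf).1
  exact ⟨J, F J, hF J, hG⟩

theorem shift_V [Infinite K] {n a : ℕ} (hmin : ∀ e, e < a → ¬ ∃ b, ∃ f ∈ H K 0 e b, Good n f)
    {f : FreeAlgebra K (Fin 2)} (hV : f ∈ V K a) (hf : Good n f) (g : K[X])
    (Y Z : Matrix (Fin n) (Fin n) K) :
    FreeAlgebra.lift K ![Y + aeval Z g, Z] f = FreeAlgebra.lift K ![Y, Z] f := by
  have hx : ∀ (k : ℕ) (Y : Fin 2 → Matrix (Fin n) (Fin n) K) (t : K),
      FreeAlgebra.lift K (fun c => Y c + if c = 0 then t • Y (0 + 1) ^ k else 0) f =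
        FreeAlgebra.lift K Y f := by
    intro k
    rcases inv_or_lower_V k _ f hV hf with ⟨e, he, g, hg, hg'⟩ | h
    · exact absurd (exists_bihom_V hg hg') (hmin e he)
    · exact h
  induction g using Polynomial.induction_on' generalizing Y with
  | add p q hp hq => rw [map_add, ← add_assoc, hq, hp]
  | monomial k t =>
    rw [← hx k ![Y, Z] t]
    congr 2
    funext c
    fin_cases c
    · simp [aeval_monomial, Algebra.smul_def]
    · simp

end Pool.Agent.N37.NC
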