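import Pool.Agent.N37.NC.Mat
import Pool.Agent.Results.MP_5d2531_al.ShortWords
import Pool.Agent.Results.MP_5d2531_al.OtherVariablesDegree

/-!
# Leading components of `n`-central polynomials (helper37)
-/

set_option autoImplicit false

namespace Pool.Agent.N37.NC

open Polynomial Finset
open Pool.Agent.Results.MP_5d2531_al.BlockTriangular (ScalarValued IsCentral IsNuCentral)

variable {K : Type*} [Field K] {σ : Type*}

/-- all values have a characteristic polynomial `X ^ n - c`, and some value is not zero -/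
def Good (n : ℕ) (f : FreeAlgebra K σ) : Prop :=
  (∀ X : σ → Matrix (Fin n) (Fin n) K, Pur (FreeAlgebra.lift K X f)) ∧
    ∃ X : σ → Matrix (Fin n) (Fin n) K, FreeAlgebra.lift K X f ≠ 0

theorem good_of_nu [Infinite K] {n : ℕ} (hn : n.Prime) (hnK : (n : K) ≠ 0) {f : FreeAlgebra K σ}
    (hcen : IsNuCentral n n f) : Good n f := by
  have : NeZero n := ⟨hn.ne_zero⟩
  obtain ⟨h1, ⟨h2, X0, hX0⟩, h3⟩ := hcen
  have hfX0 : FreeAlgebra.lift K X0 f ≠ 0 := by
    intro hz
    apply hX0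
    rw [map_pow, hz, zero_pow hn.ne_zero]
  refine ⟨fun X => ?_, X0, hfX0⟩
  have hpow : ∀ X : σ → Matrix (Fin n) (Fin n) K, ∀ Z : Matrix (Fin n) (Fin n) K,
      FreeAlgebra.lift K X (f ^ n) * Z = Z * FreeAlgebra.lift K X (f ^ n) := by
    intro X Z
    obtain ⟨c, hc⟩ := h2 X
    rw [hc]
    exact (Matrix.scalar_commute c (fun _ => Commute.all _ _) Z).eq
  have hns : ∃ X : σ → Matrix (Fin n) (Fin n) K, ∃ Z : Matrix (Fin n) (Fin n) K,
      FreeAlgebra.lift K X f * Z ≠ Z * FreeAlgebra.lift K X f := by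
    by_contra hcon
    push Not at hcon
    have h4 : IsCentral n (f ^ 1) := by
      rw [pow_one]
      exact ⟨fun X => Pool.Agent.H552R3.PC.scalar_of_comm _ (fun Y => hcon X Y), X0, hfX0⟩
    have h5 := h3 1 one_pos h4
    have := hn.two_le
    omega
  exact Pool.Agent.H552R3.PC.charpoly_of_ncentral hn hnK f hpow hns X

theorem nu_of_good [Infinite K] {n : ℕ} (hn : n.Prime) (hnK : (n : K) ≠ 0) {f : FreeAlgebra K σ}
    (h : Good n f) : IsNuCentral n n f := by
  have : NeZero n := ⟨hn.ne_zero⟩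
  obtain ⟨h1, X0, hX0⟩ := h
  have hpow : ∀ X : σ → Matrix (Fin n) (Fin n) K, ∃ c : K,
      FreeAlgebra.lift K X (f ^ n) = Matrix.scalar (Fin n) c := by
    intro X
    obtain ⟨c, hc⟩ := h1 X
    have h2 := Matrix.aeval_self_charpoly (FreeAlgebra.lift K X f)
    rw [hc, map_sub, map_pow, aeval_X, aeval_C, sub_eq_zero] at h2
    exact ⟨c, by rw [map_pow, h2]; rfl⟩
  refine ⟨hn.pos, ⟨hpow, ?_⟩, ?_⟩
  · by_contra hcon
    push Not at hcon
    exact hX0 (Pool.Agent.TH82.NC.vanish_of_pow n f n hcon X0)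
  · rintro μ hμ ⟨hs, Y, hY⟩
    by_contra hlt
    push Not at hlt
    obtain ⟨s, hs⟩ := hs Y
    rw [map_pow] at hs hY
    exact hY (pur_pow hn hnK (h1 Y) μ hμ hlt s hs)

/-- `g` is a linear combination of words of weight `j`. -/
def OfWeight (w : σ → ℕ) (j : ℕ) (g : FreeAlgebra K σ) : Prop :=
  g ∈ Submodule.span K {v : FreeAlgebra K σ | ∃ l : List σ,
    (l.map w).sum = j ∧ v = (l.map (FreeAlgebra.ι K)).prod}

theorem OfWeight.scale {w : σ → ℕ} {j : ℕ} {g : FreeAlgebra K σ} (h : OfWeight w j g)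
    {A : Type*} [Ring A] [Algebra K A] (X : σ → A) (t : K) :
    FreeAlgebra.lift K (fun i => t ^ w i • X i) g = t ^ j • FreeAlgebra.lift K X g := by
  unfold OfWeight at h
  induction h using Submodule.span_induction with
  | mem v hv =>
    obtain ⟨l, rfl, rfl⟩ := hv
    induction l with
    | nil => simp
    | cons a l ih =>
      rw [List.map_cons, List.prod_cons, map_mul, map_mul, FreeAlgebra.lift_ι_apply,
        FreeAlgebra.lift_ι_apply, ih, List.map_cons, List.sum_cons, smul_mul_smul_comm, pow_add]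
  | zero => simp
  | add x y _ _ hx hy => rw [map_add, map_add, hx, hy, smul_add]
  | smul c x _ hx => rw [map_smul, map_smul, hx, smul_comm]

theorem leading [Infinite K] {n : ℕ} (N : ℕ) (f : ℕ → FreeAlgebra K σ)
    (hP : ∀ X : σ → Matrix (Fin n) (Fin n) K, ∀ t : K, t ≠ 0 →
      Pur (∑ j ∈ range (N + 1), t ^ j • FreeAlgebra.lift K X (f j)))
    (hne : ∃ j ≤ N, ∃ X : σ → Matrix (Fin n) (Fin n) K, FreeAlgebra.lift K X (f j) ≠ 0) :
    ∃ J ≤ N, Good n (f J) ∧ ∀ j ≤ N, J < j →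
      ∀ X : σ → Matrix (Fin n) (Fin n) K, FreeAlgebra.lift K X (f j) = 0 := by
  classical
  set P : ℕ → Prop := fun j => ∃ X : σ → Matrix (Fin n) (Fin n) K,
    FreeAlgebra.lift K X (f j) ≠ 0 with hPdef
  obtain ⟨j0, hj0, hX0⟩ := hne
  have hgt : ∀ j ≤ N, Nat.findGreatest P N < j →
      ∀ X : σ → Matrix (Fin n) (Fin n) K, FreeAlgebra.lift K X (f j) = 0 := by
    intro j hj hlt X
    by_contra hcon
    exact Nat.findGreatest_is_greatest hlt hj ⟨X, hcon⟩
  refine ⟨Nat.findGreatest P N, Nat.findGreatest_le N, ⟨fun X => ?_, ?_⟩, hgt⟩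
  · refine pur_top _ (fun j => FreeAlgebra.lift K X (f j)) fun t ht => ?_
    have h1 := hP X t ht
    rw [← sum_subset (s₁ := range (Nat.findGreatest P N + 1))] at h1
    · exact h1
    · exact range_subset_range.2 (Nat.succ_le_succ (Nat.findGreatest_le N))
    · intro j hj hj'
      rw [mem_range] at hj hj'
      rw [hgt j (by omega) (by omega) X, smul_zero]
  · exact Nat.findGreatest_spec (P := P) hj0 hX0

theorem trailing [Infinite K] {n : ℕ} (N : ℕ) (f : ℕ → FreeAlgebra K σ)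
    (hP : ∀ X : σ → Matrix (Fin n) (Fin n) K, ∀ t : K, t ≠ 0 →
      Pur (∑ j ∈ range (N + 1), t ^ j • FreeAlgebra.lift K X (f j)))
    (hne : ∃ j ≤ N, ∃ X : σ → Matrix (Fin n) (Fin n) K, FreeAlgebra.lift K X (f j) ≠ 0) :
    ∃ J ≤ N, Good n (f J) ∧ ∀ j < J,
      ∀ X : σ → Matrix (Fin n) (Fin n) K, FreeAlgebra.lift K X (f j) = 0 := by
  classical
  obtain ⟨j0, hj0, hX0⟩ := hne
  have hex : ∃ j, ∃ X : σ → Matrix (Fin n) (Fin n) K, FreeAlgebra.lift K X (f j) ≠ 0 :=
    ⟨j0, hX0⟩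
  have hlt : ∀ j < Nat.find hex,
      ∀ X : σ → Matrix (Fin n) (Fin n) K, FreeAlgebra.lift K X (f j) = 0 := by
    intro j hj X
    by_contra hcon
    exact Nat.find_min hex hj ⟨X, hcon⟩
  have hJ : Nat.find hex ≤ N := (Nat.find_le (h := hex) hX0).trans hj0
  refine ⟨Nat.find hex, hJ, ⟨fun X => ?_, Nat.find_spec hex⟩, hlt⟩
  generalize hJe : Nat.find hex = J at *
  have h1 := pur_zero (N - J) (fun i => FreeAlgebra.lift K X (f (J + i))) fun t ht => ?_
  · simpa using h1
  · have h1 := pur_smul (hP X t ht) (t ^ J)⁻¹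
    convert h1 using 1
    have e : N + 1 = J + (N - J + 1) := by omega
    rw [e, sum_range_add _ J (N - J + 1), sum_eq_zero (s := range J), zero_add, smul_sum]
    · refine sum_congr rfl fun i _ => ?_
      rw [smul_smul, pow_add, inv_mul_cancel_left₀ (pow_ne_zero _ ht)]
    · intro j hj
      rw [hlt j (mem_range.1 hj) X, smul_zero]

/-- leading and trailing components for any weights -/
theorem components [Infinite K] {n : ℕ} (w : σ → ℕ) (N : ℕ) (f : ℕ → FreeAlgebra K σ)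
    (hw : ∀ j ≤ N, OfWeight w j (f j)) (h : Good n (∑ j ∈ range (N + 1), f j)) :
    (∃ J ≤ N, Good n (f J) ∧ ∀ j ≤ N, J < j →
      ∀ X : σ → Matrix (Fin n) (Fin n) K, FreeAlgebra.lift K X (f j) = 0) ∧
    (∃ J ≤ N, Good n (f J) ∧ ∀ j < J,
      ∀ X : σ → Matrix (Fin n) (Fin n) K, FreeAlgebra.lift K X (f j) = 0) := by
  have hP : ∀ X : σ → Matrix (Fin n) (Fin n) K, ∀ t : K, t ≠ 0 →
      Pur (∑ j ∈ range (N + 1), t ^ j • FreeAlgebra.lift K X (f j)) := by
    intro X t _
    have h1 := h.1 fun i => t ^ w i • X i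
    rw [map_sum] at h1
    convert h1 using 1
    refine sum_congr rfl fun j hj => ?_
    rw [(hw j (by rw [mem_range] at hj; omega)).scale]
  have hne : ∃ j ≤ N, ∃ X : σ → Matrix (Fin n) (Fin n) K, FreeAlgebra.lift K X (f j) ≠ 0 := by
    by_contra hcon
    push Not at hcon
    obtain ⟨X, hX⟩ := h.2
    apply hX
    rw [map_sum]
    refine sum_eq_zero fun j hj => ?_
    exact hcon j (by rw [mem_range] at hj; omega) X
  exact ⟨leading N f hP hne, trailing N f hP hne⟩

end Pool.Agent.N37.NC
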