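import Mathlib

/-!
# Matrices with characteristic polynomial `X ^ n - c`, and limits (helper37)
-/

set_option autoImplicit false

namespace Pool.Agent.N37.NC

open Polynomial Finset

variable {K : Type*} [Field K] {n : ℕ}

/-- the characteristic polynomial is `X ^ n - c` -/
def Pur (A : Matrix (Fin n) (Fin n) K) : Prop := ∃ c : K, A.charpoly = X ^ n - C c

theorem pur_iff (A : Matrix (Fin n) (Fin n) K) :
    Pur A ↔ ∀ k, 0 < k → k < n → A.charpoly.coeff k = 0 := by
  constructor
  · rintro ⟨c, hc⟩ k hk hkn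
    rw [hc, coeff_sub, coeff_X_pow, if_neg hkn.ne, coeff_C, if_neg hk.ne', sub_zero]
  · intro h
    rcases Nat.eq_zero_or_pos n with rfl | hn
    · refine ⟨0, ?_⟩
      rw [Matrix.charpoly_isEmpty, pow_zero, map_zero, sub_zero]
    refine ⟨-A.charpoly.coeff 0, ?_⟩
    have hdeg : A.charpoly.natDegree = n := by
      rw [Matrix.charpoly_natDegree_eq_dim, Fintype.card_fin]
    ext k
    rw [coeff_sub, coeff_X_pow, coeff_C]
    rcases lt_trichotomy k n with hk | hk | hk
    · rw [if_neg hk.ne]
      rcases Nat.eq_zero_or_pos k with rfl | h0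
      · rw [if_pos rfl, zero_sub, neg_neg]
      · rw [if_neg h0.ne', h k h0 hk, sub_zero]
    · rw [if_pos hk, if_neg (by omega), sub_zero, hk]
      have h1 := (Matrix.charpoly_monic A).coeff_natDegree
      rwa [hdeg] at h1
    · rw [if_neg (by omega), if_neg (by omega), sub_zero]
      exact coeff_eq_zero_of_natDegree_lt (by rw [hdeg]; exact hk)

theorem pur_smul [Infinite K] {A : Matrix (Fin n) (Fin n) K} (h : Pur A) (c : K) :
    Pur (c • A) := by
  obtain ⟨d, hd⟩ := h
  rcases eq_or_ne c 0 with rfl | hc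
  · rcases Nat.eq_zero_or_pos n with rfl | hn
    · exact ⟨0, by rw [Matrix.charpoly_isEmpty, pow_zero, map_zero, sub_zero]⟩
    · refine ⟨0, ?_⟩
      rw [zero_smul, Matrix.charpoly_zero, Fintype.card_fin, map_zero, sub_zero]
  · refine ⟨c ^ n * d, Polynomial.funext fun t => ?_⟩
    rw [Matrix.eval_charpoly, eval_sub, eval_pow, eval_X, eval_C]
    have h1 : Matrix.scalar (Fin n) t - c • A = c • (Matrix.scalar (Fin n) (c⁻¹ * t) - A) := by
      rw [smul_sub]
      congr 1
      ext i j
      rw [Matrix.smul_apply, Matrix.scalar_apply, Matrix.scalar_apply, Matrix.diagonal_apply,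
        Matrix.diagonal_apply]
      split_ifs
      · rw [smul_eq_mul, mul_inv_cancel_left₀ hc]
      · rw [smul_zero]
    rw [h1, Matrix.det_smul, Fintype.card_fin, ← Matrix.eval_charpoly, hd, eval_sub, eval_pow,
      eval_X, eval_C, mul_sub, ← mul_pow, mul_inv_cancel_left₀ hc]

/-- the value at zero of a polynomial family -/
theorem pur_zero [Infinite K] (m : ℕ) (B : ℕ → Matrix (Fin n) (Fin n) K)
    (h : ∀ t : K, t ≠ 0 → Pur (∑ i ∈ range (m + 1), t ^ i • B i)) : Pur (B 0) := by
  rw [pur_iff]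
  intro k hk hkn
  set Bp : Matrix (Fin n) (Fin n) K[X] :=
    ∑ i ∈ range (m + 1), (X ^ i : K[X]) • (B i).map C with hB
  have e : ∀ t : K, Bp.map (evalRingHom t) = ∑ i ∈ range (m + 1), t ^ i • B i := by
    intro t
    ext a b
    rw [hB, Matrix.map_apply, Matrix.sum_apply, map_sum, Matrix.sum_apply]
    refine sum_congr rfl fun i _ => ?_
    rw [Matrix.smul_apply, Matrix.smul_apply, Matrix.map_apply, smul_eq_mul, smul_eq_mul, map_mul,
      map_pow, coe_evalRingHom, eval_X, eval_C]
  have e2 : ∀ t : K, (Bp.charpoly.coeff k).eval t =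
      (∑ i ∈ range (m + 1), t ^ i • B i).charpoly.coeff k := by
    intro t
    rw [← e t, Matrix.charpoly_map, coeff_map, coe_evalRingHom]
  have h0 : Bp.charpoly.coeff k = 0 := by
    apply eq_zero_of_infinite_isRoot
    refine Set.Infinite.mono (s := {t : K | t ≠ 0}) ?_ ?_
    · intro t ht
      change (Bp.charpoly.coeff k).eval t = 0
      rw [e2]
      exact (pur_iff _).1 (h t ht) k hk hkn
    · have : {t : K | t ≠ 0} = ({0} : Set K)ᶜ := by
        ext t
        simp
      rw [this]
      exact (Set.finite_singleton 0).infinite_compl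
  have h1 := e2 0
  rw [h0, eval_zero] at h1
  rw [h1]
  congr 2
  rw [sum_range_succ', sum_eq_zero, zero_add, pow_zero, one_smul]
  intro i _
  rw [pow_succ, mul_zero, zero_smul]

/-- the leading coefficient of a polynomial family -/
theorem pur_top [Infinite K] (J : ℕ) (A : ℕ → Matrix (Fin n) (Fin n) K)
    (h : ∀ t : K, t ≠ 0 → Pur (∑ j ∈ range (J + 1), t ^ j • A j)) : Pur (A J) := by
  have h1 := pur_zero J (fun i => A (J - i)) (fun t ht => ?_)
  · simpa using h1
  · have h1 := pur_smul (h t⁻¹ (inv_ne_zero ht)) (t ^ J)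
    convert h1 using 1
    rw [smul_sum, ← sum_range_reflect]
    refine sum_congr rfl fun i hi => ?_
    have hi' : i < J + 1 := mem_range.1 hi
    rw [smul_smul]
    have e : J + 1 - 1 - i = J - i := by omega
    have e' : J - (J - i) = i := by omega
    rw [e, e']
    congr 1
    rw [inv_pow, ← div_eq_mul_inv, eq_div_iff (pow_ne_zero _ ht), ← pow_add]
    congr 1
    omega

theorem pur_trace {A : Matrix (Fin n) (Fin n) K} (hn : 2 ≤ n) (h : Pur A) : A.trace = 0 := by
  obtain ⟨c, hc⟩ := h
  have : NeZero n := ⟨by omega⟩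
  rw [Matrix.trace_eq_neg_charpoly_coeff, hc, Fintype.card_fin, coeff_sub, coeff_X_pow,
    if_neg (by omega), coeff_C, if_neg (by omega), sub_zero, neg_zero]

/-- the values of a polynomial with values `X ^ n - c` have scalar powers only for multiples of
`n` -/
theorem pur_pow (hn : n.Prime) (hnK : (n : K) ≠ 0) {A : Matrix (Fin n) (Fin n) K} (h : Pur A)
    (μ : ℕ) (hμ : 0 < μ) (hμn : μ < n) (s : K) (hs : A ^ μ = Matrix.scalar (Fin n) s) :
    A ^ μ = 0 := by
  have hne : NeZero n := ⟨hn.ne_zero⟩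
  by_contra hA
  have hs0 : s ≠ 0 := by
    rintro rfl
    apply hA
    rw [hs, map_zero]
  obtain ⟨c, hc⟩ := h
  have h2 : A ^ n = Matrix.scalar (Fin n) c := by
    have h2 := Matrix.aeval_self_charpoly A
    rw [hc, map_sub, map_pow, aeval_X, aeval_C, sub_eq_zero] at h2
    rw [h2]
    rfl
  have hcop : Nat.Coprime μ n :=
    (Nat.coprime_of_lt_prime hμ.ne' hμn hn).symm
  obtain ⟨u, -, hu⟩ := Nat.exists_mul_mod_eq_one_of_coprime hcop hn.one_lt
  have hv : μ * u = n * (μ * u / n) + 1 := by
    have := Nat.div_add_mod (μ * u) n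
    omega
  set v := μ * u / n
  have h3 : Matrix.scalar (Fin n) (s ^ u) = Matrix.scalar (Fin n) (c ^ v) * A := by
    rw [map_pow, ← hs, ← pow_mul, hv, pow_succ, pow_mul, h2, map_pow]
  have hc0 : c ^ v ≠ 0 := by
    intro h0
    rw [h0, map_zero, zero_mul] at h3
    have h4 := congrFun (congrFun h3 0) 0
    rw [Matrix.scalar_apply, Matrix.diagonal_apply_eq, Matrix.zero_apply] at h4
    exact pow_ne_zero u hs0 h4
  have h5 : A = Matrix.scalar (Fin n) ((c ^ v)⁻¹ * s ^ u) := by
    rw [map_mul, h3, ← mul_assoc, ← map_mul, inv_mul_cancel₀ hc0, map_one, one_mul]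
  have h6 := pur_trace hn.two_le ⟨c, hc⟩
  rw [h5, Matrix.scalar_apply, Matrix.trace_diagonal, sum_const, card_univ, Fintype.card_fin,
    nsmul_eq_mul] at h6
  have h7 := (mul_eq_zero.1 h6).resolve_left hnK
  exact mul_ne_zero (inv_ne_zero hc0) (pow_ne_zero u hs0) h7

end Pool.Agent.N37.NC
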