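import Pool.Agent.N37.NC.Two

/-!
# The normal form (helper37)
-/

set_option autoImplicit false

namespace Pool.Agent.N37.NC

open Polynomial Finset

variable {K : Type*} [Field K]

/-- linear combinations of the words with `a` letters `i` and `b` letters `i + 1` -/
def H (K : Type*) [Field K] (i : Fin 2) (a b : ℕ) : Submodule K (FreeAlgebra K (Fin 2)) :=
  Submodule.span K {v | ∃ l : List (Fin 2), l.count i = a ∧ l.count (i + 1) = b ∧
    v = (l.map (FreeAlgebra.ι K)).prod}

theorem cases2 : ∀ i c : Fin 2, c = i ∨ c = i + 1 := by decide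

theorem ne2 : ∀ i : Fin 2, i + 1 ≠ i := by decide

theorem H_mul_self {i : Fin 2} {a b : ℕ} {v : FreeAlgebra K (Fin 2)} (h : v ∈ H K i a b) :
    FreeAlgebra.ι K i * v ∈ H K i (a + 1) b := by
  unfold H at h
  induction h using Submodule.span_induction with
  | mem v hv =>
    obtain ⟨l, rfl, rfl, rfl⟩ := hv
    refine Submodule.subset_span ⟨i :: l, ?_, ?_, ?_⟩
    · rw [List.count_cons_self]
    · rw [List.count_cons_of_ne (ne2 i).symm]
    · rw [List.map_cons, List.prod_cons]
  | zero => rw [mul_zero]; exact Submodule.zero_mem _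
  | add x y _ _ hx hy => rw [mul_add]; exact Submodule.add_mem _ hx hy
  | smul c x _ hx => rw [mul_smul_comm]; exact Submodule.smul_mem _ _ hx

theorem H_mul_other {i : Fin 2} {a b : ℕ} {v : FreeAlgebra K (Fin 2)} (h : v ∈ H K i a b) :
    FreeAlgebra.ι K (i + 1) * v ∈ H K i a (b + 1) := by
  unfold H at h
  induction h using Submodule.span_induction with
  | mem v hv =>
    obtain ⟨l, rfl, rfl, rfl⟩ := hv
    refine Submodule.subset_span ⟨(i + 1) :: l, ?_, ?_, ?_⟩
    · rw [List.count_cons_of_ne (ne2 i)]
    · rw [List.count_cons_self]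
    · rw [List.map_cons, List.prod_cons]
  | zero => rw [mul_zero]; exact Submodule.zero_mem _
  | add x y _ _ hx hy => rw [mul_add]; exact Submodule.add_mem _ hx hy
  | smul c x _ hx => rw [mul_smul_comm]; exact Submodule.smul_mem _ _ hx

theorem H_pow {i : Fin 2} {a b : ℕ} {v : FreeAlgebra K (Fin 2)} (h : v ∈ H K i a b) (k : ℕ) :
    FreeAlgebra.ι K (i + 1) ^ k * v ∈ H K i a (b + k) := by
  induction k with
  | zero => rw [pow_zero, one_mul]; exact h
  | succ k ih =>
    rw [pow_succ', mul_assoc]
    exact H_mul_other ih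

/-- the substitution `i ↦ i + t (i + 1) ^ k` -/
noncomputable def Phi (K : Type*) [Field K] (i : Fin 2) (k : ℕ) :
    FreeAlgebra K (Fin 2) →ₐ[K] (FreeAlgebra K (Fin 2))[X] :=
  FreeAlgebra.lift K fun c => C (FreeAlgebra.ι K c) +
    if c = i then C (FreeAlgebra.ι K (i + 1) ^ k) * X else 0

theorem Phi_word (i : Fin 2) (k : ℕ) (l : List (Fin 2)) (j : ℕ) :
    (∀ e, e + j = l.count i →
      (Phi K i k (l.map (FreeAlgebra.ι K)).prod).coeff j ∈ H K i e (l.count (i + 1) + j * k)) ∧
    (l.count i < j → (Phi K i k (l.map (FreeAlgebra.ι K)).prod).coeff j = 0) := by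
  induction l generalizing j with
  | nil =>
    constructor
    · intro e he
      rw [List.count_nil] at he
      obtain ⟨rfl, rfl⟩ : e = 0 ∧ j = 0 := by omega
      rw [List.map_nil, List.prod_nil, map_one, coeff_one_zero]
      exact Submodule.subset_span ⟨[], by simp, by simp, by simp⟩
    · intro hj
      rw [List.count_nil] at hj
      rw [List.map_nil, List.prod_nil, map_one, coeff_one, if_neg (by omega)]
  | cons c l ih =>
    rw [List.map_cons, List.prod_cons, map_mul]
    rcases cases2 i c with rfl | rfl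
    · have e1 : Phi K c k (FreeAlgebra.ι K c) =
          C (FreeAlgebra.ι K c) + C (FreeAlgebra.ι K (c + 1) ^ k) * X := by
        rw [Phi, FreeAlgebra.lift_ι_apply, if_pos rfl]
      rw [e1, add_mul, coeff_add, coeff_C_mul, mul_assoc, coeff_C_mul, List.count_cons_self,
        List.count_cons_of_ne (ne2 c).symm]
      cases j with
      | zero =>
        constructor
        · intro e he
          rw [coeff_X_mul_zero, mul_zero, add_zero]
          obtain ⟨e', rfl⟩ : ∃ e', e = e' + 1 := ⟨e - 1, by omega⟩
          exact H_mul_self ((ih 0).1 e' (by omega))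
        · intro hj
          omega
      | succ j =>
        rw [coeff_X_mul]
        constructor
        · intro e he
          refine Submodule.add_mem _ ?_ ?_
          · rcases Nat.eq_zero_or_pos e with rfl | he0
            · rw [(ih (j + 1)).2 (by omega), mul_zero]
              exact Submodule.zero_mem _
            · obtain ⟨e', rfl⟩ : ∃ e', e = e' + 1 := ⟨e - 1, by omega⟩
              exact H_mul_self ((ih (j + 1)).1 e' (by omega))
          · have h1 := H_pow ((ih j).1 e (by omega)) k
            have e2 : List.count (c + 1) l + j * k + k = List.count (c + 1) l + (j + 1) * k := by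
              ring
            rwa [e2] at h1
        · intro hj
          rw [(ih (j + 1)).2 (by omega), (ih j).2 (by omega), mul_zero, mul_zero, add_zero]
    · have e1 : Phi K i k (FreeAlgebra.ι K (i + 1)) = C (FreeAlgebra.ι K (i + 1)) := by
        rw [Phi, FreeAlgebra.lift_ι_apply, if_neg (ne2 i), add_zero]
      rw [e1, coeff_C_mul, List.count_cons_self, List.count_cons_of_ne (ne2 i)]
      constructor
      · intro e he
        have h1 := H_mul_other ((ih j).1 e he)
        have e2 : List.count (i + 1) l + j * k + 1 = List.count (i + 1) l + 1 + j * k := by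
          ring
        rwa [e2] at h1
      · intro hj
        rw [(ih j).2 hj, mul_zero]

theorem Phi_H {i : Fin 2} (k : ℕ) {a b : ℕ} {f : FreeAlgebra K (Fin 2)} (h : f ∈ H K i a b)
    (j : ℕ) :
    (∀ e, e + j = a → (Phi K i k f).coeff j ∈ H K i e (b + j * k)) ∧
    (a < j → (Phi K i k f).coeff j = 0) := by
  unfold H at h
  induction h using Submodule.span_induction with
  | mem v hv =>
    obtain ⟨l, rfl, rfl, rfl⟩ := hv
    exact Phi_word i k l j
  | zero =>
    rw [map_zero, coeff_zero]
    exact ⟨fun _ _ => Submodule.zero_mem _, fun _ => rfl⟩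
  | add x y _ _ hx hy =>
    rw [map_add, coeff_add]
    refine ⟨fun e he => Submodule.add_mem _ (hx.1 e he) (hy.1 e he), fun hj => ?_⟩
    rw [hx.2 hj, hy.2 hj, add_zero]
  | smul c x _ hx =>
    rw [map_smul, coeff_smul]
    refine ⟨fun e he => Submodule.smul_mem _ _ (hx.1 e he), fun hj => ?_⟩
    rw [hx.2 hj, smul_zero]

section eval

variable {A : Type*} [Ring A] [Algebra K A]

/-- evaluation at a tuple and a scalar -/
noncomputable def evt (Y : Fin 2 → A) (t : K) : (FreeAlgebra K (Fin 2))[X] →ₐ[K] A :=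
  eval₂AlgHom (FreeAlgebra.lift K Y) (algebraMap K A t)
    (fun _ => Algebra.commute_algebraMap_right t _)

theorem evt_apply (Y : Fin 2 → A) (t : K) (p : (FreeAlgebra K (Fin 2))[X]) (m : ℕ)
    (hp : ∀ j, m < j → p.coeff j = 0) :
    evt Y t p = ∑ j ∈ range (m + 1), t ^ j • FreeAlgebra.lift K Y (p.coeff j) := by
  have h1 : p.natDegree < m + 1 := Nat.lt_succ_of_le (natDegree_le_iff_coeff_eq_zero.2 hp)
  have h2 : evt Y t p = eval₂ ((FreeAlgebra.lift K Y : FreeAlgebra K (Fin 2) →ₐ[K] A) :
      FreeAlgebra K (Fin 2) →+* A) (algebraMap K A t) p := rfl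
  rw [h2, eval₂_eq_sum_range' _ h1]
  refine sum_congr rfl fun j _ => ?_
  rw [← map_pow, Algebra.smul_def, Algebra.commutes]
  rfl

theorem evt_C (Y : Fin 2 → A) (t : K) (a : FreeAlgebra K (Fin 2)) :
    evt Y t (C a) = FreeAlgebra.lift K Y a :=
  eval₂_C _ _

theorem evt_X (Y : Fin 2 → A) (t : K) : evt Y t X = algebraMap K A t :=
  eval₂_X _ _

theorem evt_Phi (i : Fin 2) (k : ℕ) (Y : Fin 2 → A) (t : K) (f : FreeAlgebra K (Fin 2)) :
    evt Y t (Phi K i k f) =
      FreeAlgebra.lift K (fun c => Y c + if c = i then t • Y (i + 1) ^ k else 0) f := by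
  have e : (evt Y t).comp (Phi K i k) =
      FreeAlgebra.lift K (fun c => Y c + if c = i then t • Y (i + 1) ^ k else 0) := by
    apply FreeAlgebra.hom_ext
    funext c
    rw [Function.comp_apply, Function.comp_apply, AlgHom.comp_apply, Phi,
      FreeAlgebra.lift_ι_apply, FreeAlgebra.lift_ι_apply, map_add, evt_C,
      FreeAlgebra.lift_ι_apply]
    congr 1
    split_ifs
    · rw [map_mul, evt_C, evt_X, map_pow, FreeAlgebra.lift_ι_apply, Algebra.smul_def,
        Algebra.commutes]
    · rw [map_zero]
  exact DFunLike.congr_fun e f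

end eval

/-- invariance or a polynomial of smaller degree -/
theorem inv_or_lower [Infinite K] {n : ℕ} (i : Fin 2) (k a b : ℕ) (f : FreeAlgebra K (Fin 2))
    (hH : f ∈ H K i a b) (hf : Good n f) :
    (∃ e, e < a ∧ ∃ b', (k = 0 → b' = b) ∧ ∃ g ∈ H K i e b', Good n g) ∨
    ∀ (Y : Fin 2 → Matrix (Fin n) (Fin n) K) (t : K),
      FreeAlgebra.lift K (fun c => Y c + if c = i then t • Y (i + 1) ^ k else 0) f =
        FreeAlgebra.lift K Y f := by
  have key : ∀ (Y : Fin 2 → Matrix (Fin n) (Fin n) K) (t : K),
      FreeAlgebra.lift K (fun c => Y c + if c = i then t • Y (i + 1) ^ k else 0) f =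
        ∑ j ∈ range (a + 1), t ^ j • FreeAlgebra.lift K Y ((Phi K i k f).coeff j) := by
    intro Y t
    rw [← evt_Phi, evt_apply Y t _ a fun j hj => (Phi_H k hH j).2 hj]
  have key0 : ∀ Y : Fin 2 → Matrix (Fin n) (Fin n) K,
      FreeAlgebra.lift K Y f = FreeAlgebra.lift K Y ((Phi K i k f).coeff 0) := by
    intro Y
    have h1 := key Y 0
    have e : (fun c => Y c + if c = i then (0 : K) • Y (i + 1) ^ k else 0) = Y := by
      funext c
      split_ifs
      · rw [zero_smul, add_zero]
      · rw [add_zero]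
    rw [e] at h1
    rw [h1, sum_range_succ', sum_eq_zero, zero_add, pow_zero, one_smul]
    intro j _
    rw [pow_succ, mul_zero, zero_smul]
  obtain ⟨J, hJ, hG, hv⟩ := leading a (fun j => (Phi K i k f).coeff j)
    (fun X t _ => by
      rw [← key X t]
      exact hf.1 _) (by
      obtain ⟨X, hX⟩ := hf.2
      exact ⟨0, Nat.zero_le _, X, by rw [← key0]; exact hX⟩)
  rcases Nat.eq_zero_or_pos J with rfl | hJ0
  · right
    intro Y t
    rw [key, key0 Y, sum_range_succ', sum_eq_zero, zero_add, pow_zero, one_smul]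
    intro j hj
    rw [mem_range] at hj
    rw [hv (j + 1) (by omega) (by omega) Y, smul_zero]
  · left
    refine ⟨a - J, by omega, b + J * k, ?_, _, (Phi_H k hH J).1 (a - J) (by omega), hG⟩
    rintro rfl
    rw [mul_zero, add_zero]

end Pool.Agent.N37.NC
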