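import Pool.Agent.N37.NC.Lead

/-!
# Reduction to two variables (helper37)
-/

set_option autoImplicit false

namespace Pool.Agent.N37.NC

open Polynomial Finset

variable {K : Type*} [Field K] {σ : Type*}

section shift

variable {n : ℕ} [NeZero n]

/-- the cyclic shift matrix -/
def Sh (K : Type*) [Field K] (n : ℕ) [NeZero n] : Matrix (Fin n) (Fin n) K :=
  Matrix.of fun i j => if i = j + 1 then 1 else 0

theorem Sh_pow (k : ℕ) (i j : Fin n) :
    (Sh K n ^ k) i j = if i = j + (Fin.ofNat n k) then 1 else 0 := by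
  induction k generalizing i j with
  | zero =>
    rw [pow_zero, Matrix.one_apply]
    have : (Fin.ofNat n 0 : Fin n) = 0 := rfl
    rw [this, add_zero]
  | succ k ih =>
    rw [pow_succ, Matrix.mul_apply]
    rw [sum_eq_single (j + 1)]
    · rw [ih, Sh, Matrix.of_apply, if_pos rfl, mul_one]
      have : (Fin.ofNat n (k + 1) : Fin n) = 1 + Fin.ofNat n k := by
        ext
        simp [Fin.ofNat, Fin.val_add, Nat.add_mod, add_comm]
      rw [this, add_assoc]
    · intro l _ hl
      rw [Sh, Matrix.of_apply, if_neg hl, mul_zero]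
    · intro h
      exact absurd (mem_univ _) h

theorem Sh_unit (A : Matrix (Fin n) (Fin n) K) :
    ∑ k : Fin n, ∑ l : Fin n, A k l •
      (Sh K n ^ (k : ℕ) * Matrix.single (0 : Fin n) (0 : Fin n) (1 : K) *
        Sh K n ^ (n - (l : ℕ)) : Matrix (Fin n) (Fin n) K) = A := by
  ext i j
  simp only [Matrix.sum_apply, Matrix.smul_apply, smul_eq_mul]
  have h : ∀ k l : Fin n, (Sh K n ^ (k : ℕ) * Matrix.single (0 : Fin n) (0 : Fin n) (1 : K) *
      Sh K n ^ (n - (l : ℕ)) : Matrix (Fin n) (Fin n) K) i j = if i = k ∧ j = l then 1 else 0 := by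
    intro k l
    rw [Matrix.mul_apply, sum_eq_single 0]
    · rw [Matrix.mul_apply, sum_eq_single 0]
      · rw [Matrix.single_apply_same, mul_one, Sh_pow, Sh_pow, zero_add]
        have e1 : (Fin.ofNat n (k : ℕ) : Fin n) = k := by
          ext
          simp [Fin.ofNat, Nat.mod_eq_of_lt k.2]
        have e2 : (0 : Fin n) = j + Fin.ofNat n (n - (l : ℕ)) ↔ j = l := by
          have h3 : (Fin.ofNat n (n - (l : ℕ)) : Fin n) = -l := by
            ext
            simp [Fin.ofNat, Fin.val_neg']
          rw [h3, ← sub_eq_add_neg, eq_comm, sub_eq_zero]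
        rw [e1]
        simp only [e2]
        by_cases h1 : i = k <;> by_cases h2 : j = l <;> simp [h1, h2]
      · intro b _ hb
        rw [Matrix.single_apply_of_ne _ _ _ _ _ (fun h => hb h.1.symm), mul_zero]
      · intro h
        exact absurd (mem_univ _) h
    · intro b _ hb
      rw [Matrix.mul_apply, sum_eq_zero, zero_mul]
      intro c _
      rw [Matrix.single_apply_of_ne _ _ _ _ _ (fun h => hb h.2.symm), mul_zero]
    · intro h
      exact absurd (mem_univ _) h
  simp only [h]
  rw [sum_eq_single i, sum_eq_single j]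
  · simp
  · intro l _ hl
    rw [if_neg (fun h => hl h.2.symm), mul_zero]
  · intro h
    exact absurd (mem_univ _) h
  · intro k _ hk
    refine sum_eq_zero fun l _ => ?_
    rw [if_neg (fun h => hk h.1.symm), mul_zero]
  · intro h
    exact absurd (mem_univ _) h

end shift

theorem to_two [Infinite K] {n : ℕ} (hn : 0 < n) {f : FreeAlgebra K σ} (h : Good n f) :
    ∃ g : FreeAlgebra K (Fin 2), Good n g := by
  have : NeZero n := ⟨hn.ne'⟩
  obtain ⟨h1, X0, hX0⟩ := h
  set P : σ → FreeAlgebra K (Fin 2) := fun c => ∑ k : Fin n, ∑ l : Fin n, X0 c k l •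
    (FreeAlgebra.ι K (1 : Fin 2) ^ (k : ℕ) * FreeAlgebra.ι K (0 : Fin 2) *
      FreeAlgebra.ι K (1 : Fin 2) ^ (n - (l : ℕ))) with hP
  have hcomp : ∀ Z : Fin 2 → Matrix (Fin n) (Fin n) K,
      FreeAlgebra.lift K Z (FreeAlgebra.lift K P f) =
        FreeAlgebra.lift K (fun c => FreeAlgebra.lift K Z (P c)) f := by
    intro Z
    have e : (FreeAlgebra.lift K Z).comp (FreeAlgebra.lift K P) =
        FreeAlgebra.lift K (fun c => FreeAlgebra.lift K Z (P c)) := by
      apply FreeAlgebra.hom_ext
      funext c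
      simp
    exact DFunLike.congr_fun e f
  refine ⟨FreeAlgebra.lift K P f, fun Z => ?_, ![Matrix.single 0 0 1, Sh K n], ?_⟩
  · rw [hcomp]
    exact h1 _
  · rw [hcomp]
    have e : (fun c => FreeAlgebra.lift K ![Matrix.single 0 0 (1 : K), Sh K n] (P c)) = X0 := by
      funext c
      rw [hP]
      simp only [map_sum, map_smul, map_mul, map_pow, FreeAlgebra.lift_ι_apply,
        Matrix.cons_val_zero, Matrix.cons_val_one]
      exact Sh_unit (X0 c)
    rw [e]
    exact hX0

end Pool.Agent.N37.NC
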